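import Pool.Agent.H46.VIO.Stmts

/-!
# Row GCH of board vio: an integer in a short interval which is prime to most of `T`
-/

set_option autoImplicit false

namespace Pool.VIO

open Finset

theorem cnt_dvd36 (a b t : ℕ) (hab : a ≤ b) (ht : 2 ≤ t) :
    (((Ioc a b).filter (fun g => t ∣ g)).card : ℝ) ≤ ((b : ℝ) - a) / 2 + 1 := by
  have h1 : ((Ioc a b).filter (fun g => t ∣ g)) =
      ((Ioc 0 b).filter (fun g => t ∣ g)) \ ((Ioc 0 a).filter (fun g => t ∣ g)) := by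
    ext x
    simp only [mem_filter, mem_Ioc, mem_sdiff, not_and]
    constructor
    · rintro ⟨⟨h2, h3⟩, h4⟩
      refine ⟨⟨⟨by omega, h3⟩, h4⟩, fun h5 => ?_⟩
      omega
    · rintro ⟨⟨⟨h2, h3⟩, h4⟩, h5⟩
      refine ⟨⟨?_, h3⟩, h4⟩
      by_contra h6
      exact h5 ⟨h2, by omega⟩ h4
  have h2 : ((Ioc 0 a).filter (fun g => t ∣ g)) ⊆ ((Ioc 0 b).filter (fun g => t ∣ g)) := by
    intro x hx
    simp only [mem_filter, mem_Ioc] at hx ⊢
    exact ⟨⟨hx.1.1, hx.1.2.trans hab⟩, hx.2⟩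
  have h3 : ((Ioc a b).filter (fun g => t ∣ g)).card = b / t - a / t := by
    rw [h1, Finset.card_sdiff_of_subset h2, Nat.Ioc_filter_dvd_card_eq_div,
      Nat.Ioc_filter_dvd_card_eq_div]
  rw [h3]
  have ht0 : (0 : ℝ) < t := by
    have : 0 < t := by omega
    exact_mod_cast this
  have h4 : a / t ≤ b / t := Nat.div_le_div_right hab
  rw [Nat.cast_sub h4]
  have h5 : ((b / t : ℕ) : ℝ) ≤ (b : ℝ) / t := Nat.cast_div_le
  have h6 : (a : ℝ) / t - 1 ≤ ((a / t : ℕ) : ℝ) := by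
    have h7 : a < t * (a / t + 1) := Nat.lt_mul_div_succ a (by omega)
    have h8 : (a : ℝ) < t * (((a / t : ℕ) : ℝ) + 1) := by exact_mod_cast h7
    have h9 : (a : ℝ) / t < ((a / t : ℕ) : ℝ) + 1 := by
      rw [div_lt_iff₀ ht0]
      linarith
    linarith
  have h7 : ((b : ℝ) - a) / t ≤ ((b : ℝ) - a) / 2 := by
    have h8 : (0 : ℝ) ≤ (b : ℝ) - a := by
      have : (a : ℝ) ≤ b := by exact_mod_cast hab
      linarith
    have h9 : (2 : ℝ) ≤ t := by exact_mod_cast ht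
    exact div_le_div_of_nonneg_left h8 (by norm_num) h9
  have h8 : ((b : ℝ) - a) / t = (b : ℝ) / t - (a : ℝ) / t := sub_div _ _ _
  linarith

theorem gch_thm : S_GCH := by
  intro T w y θ hT hθ hθ1 hy
  have hy0 : 0 < y := by
    by_contra h
    have h1 : θ * y ≤ 0 := mul_nonpos_of_nonneg_of_nonpos hθ.le (not_lt.mp h)
    linarith
  set a : ℕ := ⌈(1 - θ) * y⌉₊ with ha
  set b : ℕ := ⌊y⌋₊ with hb
  have ha1 : (1 - θ) * y ≤ a := Nat.le_ceil _
  have ha2 : (a : ℝ) < (1 - θ) * y + 1 := by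
    refine Nat.ceil_lt_add_one ?_
    exact mul_nonneg (by linarith) hy0.le
  have hb1 : (b : ℝ) ≤ y := Nat.floor_le hy0.le
  have hb2 : y < b + 1 := Nat.lt_floor_add_one y
  have hn : (18 : ℝ) ≤ (b : ℝ) - a := by nlinarith
  have hab : a ≤ b := by
    have : (a : ℝ) ≤ b := by linarith
    exact_mod_cast this
  by_contra hcon
  push Not at hcon
  set W : ℝ := ∑ t ∈ T, w t with hW
  have hW0 : 0 ≤ W := Finset.sum_nonneg fun t ht => (hT t ht).2
  have h1 : ∀ g ∈ Ioc a b, 3 * ∑ t ∈ T.filter (fun t => ¬ t ∣ g), w t < W := by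
    intro g hg
    rw [mem_Ioc] at hg
    refine hcon g ?_ ?_
    · have : (a : ℝ) ≤ g := by exact_mod_cast hg.1.le
      linarith
    · have : (g : ℝ) ≤ b := by exact_mod_cast hg.2
      linarith
  have hne : (Ioc a b).Nonempty := by
    refine ⟨b, ?_⟩
    rw [mem_Ioc]
    refine ⟨?_, le_rfl⟩
    have : (a : ℝ) < b := by linarith
    exact_mod_cast this
  have h2 : ∑ g ∈ Ioc a b, 3 * ∑ t ∈ T.filter (fun t => ¬ t ∣ g), w t < ∑ _g ∈ Ioc a b, W :=
    Finset.sum_lt_sum_of_nonempty hne h1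
  have hcard : ((Ioc a b).card : ℝ) = (b : ℝ) - a := by
    rw [Nat.card_Ioc, Nat.cast_sub hab]
  have h3 : ∑ _g ∈ Ioc a b, W = ((b : ℝ) - a) * W := by
    rw [Finset.sum_const, nsmul_eq_mul, hcard]
  have h4 : ∑ g ∈ Ioc a b, ∑ t ∈ T.filter (fun t => ¬ t ∣ g), w t =
      ∑ t ∈ T, (((Ioc a b).filter (fun g => ¬ t ∣ g)).card : ℝ) * w t := by
    have h5 : ∀ g ∈ Ioc a b, ∑ t ∈ T.filter (fun t => ¬ t ∣ g), w t =
        ∑ t ∈ T, if ¬ t ∣ g then w t else 0 := fun g _ => Finset.sum_filter _ _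
    rw [Finset.sum_congr rfl h5, Finset.sum_comm]
    refine Finset.sum_congr rfl fun t _ => ?_
    rw [← Finset.sum_filter, Finset.sum_const, nsmul_eq_mul]
  have h5 : ∀ t ∈ T, (((b : ℝ) - a) / 2 - 1) * w t ≤
      (((Ioc a b).filter (fun g => ¬ t ∣ g)).card : ℝ) * w t := by
    intro t ht
    refine mul_le_mul_of_nonneg_right ?_ (hT t ht).2
    have h6 := cnt_dvd36 a b t hab (hT t ht).1.two_le
    have h7 : ((Ioc a b).filter (fun g => t ∣ g)).card +
        ((Ioc a b).filter (fun g => ¬ t ∣ g)).card = (Ioc a b).card :=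
      Finset.card_filter_add_card_filter_not _
    have h8 : (((Ioc a b).filter (fun g => t ∣ g)).card : ℝ) +
        (((Ioc a b).filter (fun g => ¬ t ∣ g)).card : ℝ) = (b : ℝ) - a := by
      rw [← hcard, ← h7]
      push_cast
      ring
    linarith
  have h6 : (((b : ℝ) - a) / 2 - 1) * W ≤
      ∑ g ∈ Ioc a b, ∑ t ∈ T.filter (fun t => ¬ t ∣ g), w t := by
    rw [h4, hW, Finset.mul_sum]
    exact Finset.sum_le_sum h5
  rw [← Finset.mul_sum, h3] at h2
  nlinarith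

end Pool.VIO
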